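import Mathlib

/-!
# Good endomorphisms of free algebras: definitions
-/

set_option autoImplicit false

open scoped TensorProduct Kronecker

universe u v

namespace Pool.Agent.W543.GE

/-- The free algebra `K⟨x_1, ..., x_n⟩`. -/
abbrev A (K : Type u) [Field K] (n : ℕ) : Type u := FreeAlgebra K (Fin n)

section

variable {K : Type u} [Field K] {n : ℕ}

/-- The variable `x_i`. -/
abbrev x (i : Fin n) : A K n := FreeAlgebra.ι K i

/-- The evaluation of noncommutative polynomials. -/
noncomputable abbrev ev {S : Type v} [Ring S] [Algebra K S] (X : Fin n → S) : A K n →ₐ[K] S :=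
  FreeAlgebra.lift K X

/-- The constant term. -/
noncomputable abbrev eps : A K n →ₐ[K] K := FreeAlgebra.algebraMapInv

theorem commute_ev {S : Type v} [Ring S] [Algebra K S] {m : ℕ} (X : Fin n → S) (Y : Fin m → S)
    (h : ∀ i j, Commute (X i) (Y j)) (a : A K n) (b : A K m) : Commute (ev X a) (ev Y b) := by
  have h1 : ∀ i, Commute (X i) (ev Y b) := by
    intro i
    induction b using FreeAlgebra.induction with
    | grade0 r => rw [AlgHom.commutes]; exact (Algebra.commutes r (X i)).symm
    | grade1 j => rw [FreeAlgebra.lift_ι_apply]; exact h i j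
    | mul a b ha hb => rw [map_mul]; exact ha.mul_right hb
    | add a b ha hb => rw [map_add]; exact ha.add_right hb
  induction a using FreeAlgebra.induction with
  | grade0 r => rw [AlgHom.commutes]; exact Algebra.commutes r _
  | grade1 j => rw [FreeAlgebra.lift_ι_apply]; exact h1 j
  | mul a b ha hb => rw [map_mul]; exact ha.mul_left hb
  | add a b ha hb => rw [map_add]; exact ha.add_left hb

/-- The evaluation of elements of `A ⊗ A` at a pair of commuting tuples. -/
noncomputable def bi {S : Type v} [Ring S] [Algebra K S] (X Y : Fin n → S)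
    (h : ∀ i j, Commute (X i) (Y j)) : (A K n ⊗[K] A K n) →ₐ[K] S :=
  Algebra.TensorProduct.lift (ev X) (ev Y) (commute_ev X Y h)

theorem bi_tmul {S : Type v} [Ring S] [Algebra K S] (X Y : Fin n → S)
    (h : ∀ i j, Commute (X i) (Y j)) (a b : A K n) : bi X Y h (a ⊗ₜ b) = ev X a * ev Y b :=
  Algebra.TensorProduct.lift_tmul _ _ _ _ _

section kap

variable {R : Type v} [CommRing R] [Algebra K R] {N N' : ℕ}

/-- The evaluation of elements of `A ⊗ A` at a pair of tuples of matrices, by Kronecker
products. -/
noncomputable def kap (X : Fin n → Matrix (Fin N) (Fin N) R) (Y : Fin n → Matrix (Fin N') (Fin N') R) :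
    (A K n ⊗[K] A K n) →ₐ[K] Matrix (Fin N × Fin N') (Fin N × Fin N') R :=
  bi (fun i => X i ⊗ₖ (1 : Matrix (Fin N') (Fin N') R)) (fun i => (1 : Matrix (Fin N) (Fin N) R) ⊗ₖ Y i)
    (fun i j => by
      rw [commute_iff_eq, ← Matrix.mul_kronecker_mul, ← Matrix.mul_kronecker_mul, one_mul, mul_one,
        one_mul, mul_one])

theorem ev_kron_one (X : Fin n → Matrix (Fin N) (Fin N) R) (a : A K n) :
    ev (fun i => X i ⊗ₖ (1 : Matrix (Fin N') (Fin N') R)) a = ev X a ⊗ₖ 1 := by
  induction a using FreeAlgebra.induction with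
  | grade0 r =>
    rw [AlgHom.commutes, AlgHom.commutes, Algebra.algebraMap_eq_smul_one,
      Algebra.algebraMap_eq_smul_one, Matrix.smul_kronecker, Matrix.one_kronecker_one]
  | grade1 j => rw [FreeAlgebra.lift_ι_apply, FreeAlgebra.lift_ι_apply]
  | mul a b ha hb => rw [map_mul, map_mul, ha, hb, ← Matrix.mul_kronecker_mul, one_mul]
  | add a b ha hb => rw [map_add, map_add, ha, hb, Matrix.add_kronecker]

theorem ev_one_kron (Y : Fin n → Matrix (Fin N') (Fin N') R) (a : A K n) :
    ev (fun i => (1 : Matrix (Fin N) (Fin N) R) ⊗ₖ Y i) a = 1 ⊗ₖ ev Y a := by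
  induction a using FreeAlgebra.induction with
  | grade0 r =>
    rw [AlgHom.commutes, AlgHom.commutes, Algebra.algebraMap_eq_smul_one,
      Algebra.algebraMap_eq_smul_one, Matrix.kronecker_smul, Matrix.one_kronecker_one]
  | grade1 j => rw [FreeAlgebra.lift_ι_apply, FreeAlgebra.lift_ι_apply]
  | mul a b ha hb => rw [map_mul, map_mul, ha, hb, ← Matrix.mul_kronecker_mul, one_mul]
  | add a b ha hb => rw [map_add, map_add, ha, hb, Matrix.kronecker_add]

theorem kap_tmul (X : Fin n → Matrix (Fin N) (Fin N) R) (Y : Fin n → Matrix (Fin N') (Fin N') R)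
    (a b : A K n) : kap X Y (a ⊗ₜ b) = ev X a ⊗ₖ ev Y b := by
  rw [kap, bi_tmul, ev_kron_one, ev_one_kron, ← Matrix.mul_kronecker_mul, one_mul, mul_one]

end kap

section dd

/-- The left action of `A` on `A ⊗ A`: multiplication by `a ⊗ 1`. -/
noncomputable def lf (a : A K n) : A K n ⊗[K] A K n := a ⊗ₜ 1

/-- The right action of `A` on `A ⊗ A`: multiplication by `1 ⊗ b*`, `b*` being `b` with all words
reversed. -/
noncomputable def rt (b : A K n) : A K n ⊗[K] A K n := 1 ⊗ₜ star b

theorem lf_mul (a b : A K n) : lf (a * b) = lf a * lf b := by simp [lf]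

theorem rt_mul (a b : A K n) : rt (a * b) = rt b * rt a := by simp [rt]

theorem lf_rt (a b : A K n) : lf a * rt b = rt b * lf a := by simp [lf, rt]

theorem star_smul' (r : K) (a : A K n) : star (r • a) = r • star a := by
  rw [Algebra.smul_def, star_mul, FreeAlgebra.star_algebraMap, ← Algebra.commutes,
    ← Algebra.smul_def]

theorem rt_add (a b : A K n) : rt (a + b) = rt a + rt b := by
  rw [rt, star_add, TensorProduct.tmul_add]; rfl

theorem rt_smul (r : K) (a : A K n) : rt (r • a) = r • rt a := by
  rw [rt, star_smul', TensorProduct.tmul_smul]; rfl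

theorem rt_one : rt (1 : A K n) = 1 := by
  rw [rt, star_one]; rfl

theorem lf_add (a b : A K n) : lf (a + b) = lf a + lf b := TensorProduct.add_tmul _ _ _

theorem lf_smul (r : K) (a : A K n) : lf (r • a) = r • lf a := rfl

theorem lf_one : lf (1 : A K n) = 1 := rfl

/-- Auxiliary operators. -/
noncomputable def tau (i : Fin n) : Module.End K ((Fin n → A K n ⊗[K] A K n) × A K n) where
  toFun p := (fun j => lf (x i) * p.1 j + rt p.2 * (Pi.single i 1 : Fin n → A K n ⊗[K] A K n) j,
    x i * p.2)
  map_add' p q := by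
    refine Prod.ext ?_ (by simp [mul_add])
    funext j
    simp only [Prod.fst_add, Prod.snd_add, Pi.add_apply, rt_add, add_mul, mul_add]
    abel
  map_smul' r p := by
    refine Prod.ext ?_ (by simp)
    funext j
    simp only [Prod.smul_fst, Prod.smul_snd, Pi.smul_apply, rt_smul, mul_smul_comm,
      smul_mul_assoc, RingHom.id_apply, smul_add]

theorem tau_apply (i : Fin n) (p : (Fin n → A K n ⊗[K] A K n) × A K n) :
    tau i p = (fun j => lf (x i) * p.1 j + rt p.2 * (Pi.single i 1 : Fin n → A K n ⊗[K] A K n) j,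
      x i * p.2) := rfl

/-- The partial derivatives `∂_i : A → A ⊗ A`: `∂_i (u x_i v) = u ⊗ v*`, summed over all
occurrences of `x_i` in a word. -/
noncomputable def dd : A K n →ₗ[K] (Fin n → A K n ⊗[K] A K n) where
  toFun a := ((FreeAlgebra.lift K (tau (K := K) (n := n)) a) (0, 1)).1
  map_add' a b := by rw [map_add]; rfl
  map_smul' r a := by rw [map_smul]; rfl

theorem dd_def (a : A K n) : dd a = ((FreeAlgebra.lift K (tau (K := K) (n := n)) a) (0, 1)).1 :=
  rfl

theorem dd_x (i : Fin n) : dd (x i) = (Pi.single i 1 : Fin n → A K n ⊗[K] A K n) := by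
  rw [dd_def, FreeAlgebra.lift_ι_apply, tau_apply]
  funext j
  simp only [Pi.zero_apply, mul_zero, zero_add, rt_one, one_mul]

theorem dd_algebraMap (r : K) : dd (algebraMap K (A K n) r) = 0 := by
  rw [dd_def, AlgHom.commutes, Module.algebraMap_end_apply]
  simp

theorem lift_tau (a : A K n) (p : (Fin n → A K n ⊗[K] A K n) × A K n) :
    (FreeAlgebra.lift K (tau (K := K) (n := n)) a) p =
      (fun j => lf a * p.1 j + rt p.2 * dd a j, a * p.2) := by
  induction a using FreeAlgebra.induction generalizing p with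
  | grade0 r =>
    rw [AlgHom.commutes, Module.algebraMap_end_apply, dd_algebraMap]
    refine Prod.ext ?_ (by simp [Algebra.smul_def])
    funext j
    simp only [Pi.zero_apply, mul_zero, add_zero]
    rw [Algebra.algebraMap_eq_smul_one, lf_smul, lf_one, smul_mul_assoc, one_mul]
    rfl
  | grade1 i => rw [FreeAlgebra.lift_ι_apply, dd_x, tau_apply]
  | mul a b ha hb =>
    have h1 : dd (a * b) = fun j => lf a * dd b j + rt b * dd a j := by
      rw [dd_def, map_mul, Module.End.mul_apply, hb, ha]
      funext j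
      simp only [Pi.zero_apply, mul_zero, zero_add, rt_one, one_mul, mul_one]
    rw [map_mul, Module.End.mul_apply, hb, ha, h1]
    refine Prod.ext ?_ (mul_assoc _ _ _).symm
    funext j
    simp only [rt_mul, lf_mul, mul_add, ← mul_assoc, lf_rt]
    rw [add_assoc]
  | add a b ha hb =>
    rw [map_add, LinearMap.add_apply, ha, hb, map_add]
    refine Prod.ext ?_ (add_mul _ _ _).symm
    funext j
    simp only [Prod.mk_add_mk, Pi.add_apply, lf_add, add_mul, mul_add]
    abel

/-- The Leibniz rule. -/
theorem dd_mul (a b : A K n) (i : Fin n) : dd (a * b) i = lf a * dd b i + rt b * dd a i := by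
  have h1 : dd (a * b) = fun j => lf a * dd b j + rt b * dd a j := by
    rw [dd_def, map_mul, Module.End.mul_apply, lift_tau, lift_tau]
    funext j
    simp only [Pi.zero_apply, mul_zero, zero_add, rt_one, one_mul, mul_one]
  rw [h1]

/-- The Jacobian matrix of an endomorphism. -/
noncomputable def jac (φ : A K n →ₐ[K] A K n) : Matrix (Fin n) (Fin n) (A K n ⊗[K] A K n) :=
  fun k i => dd (φ (x k)) i

end dd

/-- The values of the matrix `J` at all pairs of tuples of matrices are injective. -/
def PtInj (K : Type u) [Field K] (n : ℕ) (J : Matrix (Fin n) (Fin n) (A K n ⊗[K] A K n)) : Prop :=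
  ∀ (F : Type u) [Field F] [Algebra K F] (N N' : ℕ) (X : Fin n → Matrix (Fin N) (Fin N) F)
    (Y : Fin n → Matrix (Fin N') (Fin N') F) (v : Fin n → (Fin N × Fin N' → F)),
    (∀ k, ∑ i, (kap X Y (J k i)).mulVec (v i) = 0) → v = 0

end

end Pool.Agent.W543.GE
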