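import Mathlib
import Pool.Agent.W543.GE.Defs

/-!
# Good endomorphisms of free algebras: the parts of the proof, as propositions
-/

set_option autoImplicit false

open scoped TensorProduct Kronecker Polynomial

universe u

namespace Pool.Agent.W543.GE

/-- The ideal of the elements with zero constant term. -/
noncomputable def aug (K : Type u) [Field K] (n : ℕ) : Submodule K (A K n) :=
  LinearMap.ker (eps : A K n →ₐ[K] K).toLinearMap

/-- `φ` is good. -/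
def IsGood (K : Type u) [Field K] (n : ℕ) (φ : A K n →ₐ[K] A K n) : Prop :=
  ∀ m : ℕ, 1 ≤ m → ∃ (ψ : A K n →ₐ[K] A K n) (θ : A K n ≃ₐ[K] A K n),
    φ = ψ.comp θ.toAlgHom ∧ ∀ i, ψ (x i) - x i ∈ aug K n ^ m

/-- `φ` is a limit of automorphisms. -/
def IsLimit (K : Type u) [Field K] (n : ℕ) (φ : A K n →ₐ[K] A K n) : Prop :=
  ∀ m : ℕ, 1 ≤ m → ∃ θ : A K n ≃ₐ[K] A K n, ∀ i, φ (x i) - θ (x i) ∈ aug K n ^ m

/-- PART GOODLIM. -/
def GOODLIM_stmt : Prop := ∀ (K : Type u) [Field K] (n : ℕ) (φ : A K n →ₐ[K] A K n),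
  IsGood K n φ → IsLimit K n φ

/-- The block matrix of the values `kap X Y (J k i)`. -/
noncomputable def big {K : Type u} [Field K] {n : ℕ} {R : Type u} [CommRing R] [Algebra K R]
    {N N' : ℕ} (X : Fin n → Matrix (Fin N) (Fin N) R) (Y : Fin n → Matrix (Fin N') (Fin N') R)
    (J : Matrix (Fin n) (Fin n) (A K n ⊗[K] A K n)) :
    Matrix (Fin n × Fin N × Fin N') (Fin n × Fin N × Fin N') R :=
  fun p q => kap X Y (J p.1 q.1) p.2 q.2

/-- PART UNITJ. -/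
def UNITJ_stmt : Prop := ∀ (K : Type u) [Field K] (n : ℕ) (θ : A K n ≃ₐ[K] A K n) (R : Type u)
  [CommRing R] [Algebra K R] (N N' : ℕ) (X : Fin n → Matrix (Fin N) (Fin N) R)
  (Y : Fin n → Matrix (Fin N') (Fin N') R), IsUnit (big X Y (jac θ.toAlgHom)).det

/-- PART ORD. -/
def ORD_stmt : Prop := ∀ (K : Type u) [Field K] (n m : ℕ) (a : A K n), a ∈ aug K n ^ m →
  ∀ (F : Type u) [Field F] [Algebra K F] (N N' : ℕ) (X : Fin n → Matrix (Fin N) (Fin N) F)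
    (Y : Fin n → Matrix (Fin N') (Fin N') F) (i : Fin n) (p q : Fin N × Fin N'),
    (Polynomial.X : F[X]) ^ (m - 1) ∣
      kap (fun j => (Polynomial.X : F[X]) • (X j).map Polynomial.C)
        (fun j => (Polynomial.X : F[X]) • (Y j).map Polynomial.C) (dd a i) p q

/-- PART GOODPT (from UNITJ and ORD). -/
def GOODPT_stmt : Prop := ∀ (K : Type u) [Field K] (n : ℕ) (φ : A K n →ₐ[K] A K n),
  IsLimit K n φ → PtInj K n (jac φ)

/-- All tuples of matrices over algebraically closed fields are values of `φ`. -/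
def IsOnto (K : Type u) [Field K] (n : ℕ) (φ : A K n →ₐ[K] A K n) : Prop :=
  ∀ (F : Type u) [Field F] [IsAlgClosed F] [Algebra K F] (N : ℕ)
    (Y : Fin n → Matrix (Fin N) (Fin N) F),
    ∃ X : Fin n → Matrix (Fin N) (Fin N) F, ∀ k, ev X (φ (x k)) = Y k

/-- PART SURJ. -/
def SURJ_stmt : Prop := ∀ (K : Type u) [Field K] (n : ℕ) (φ : A K n →ₐ[K] A K n),
  PtInj K n (jac φ) → IsOnto K n φ

/-- PART NIL. -/
def NIL_stmt : Prop := ∀ (F : Type u) [Field F] (W : Type u) [AddCommGroup W] [Module F W]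
  [FiniteDimensional F W] (g : ℕ) (T : Fin g → Module.End F W),
  (∀ (N : ℕ) (X : Fin g → Matrix (Fin N) (Fin N) F) (s : Fin N → W),
    (∀ a, s a = ∑ j, ∑ b, X j a b • T j (s b)) → s = 0) →
  ∃ k : ℕ, ∀ w : List (Fin g), k ≤ w.length → (w.map T).prod = 0

/-- PART CHAIN. -/
def CHAIN_stmt : Prop := ∀ (D : Type u) [Ring D] [Nontrivial D], (∀ a : D, IsUnit a ∨ a = 0) →
  ∀ (S : Type) [Fintype S] [DecidableEq S] (g : ℕ) (B : Fin g → Matrix S S D),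
    (∃ k : ℕ, ∀ w : List (Fin g), k ≤ w.length → (w.map B).prod = 0) →
    ∀ w : List (Fin g), Fintype.card S ≤ w.length → (w.map B).prod = 0

/-- PART DIVA. -/
def DIVA_stmt : Prop := ∀ (K : Type u) [Field K] (n N : ℕ), 0 < N →
  ∃ (L : Type u) (_ : Field L) (_ : Algebra K L) (σ : L ≃ₐ[K] L) (l : Fin n → L),
    σ ^ N = 1 ∧ ∀ k ≤ N, LinearIndependent K
      (fun w : Fin k → Fin n => ∏ j : Fin k, (σ ^ (j : ℕ)) (l (w j)))

/-- PART DIVB. -/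
def DIVB_stmt : Prop := ∀ (K : Type u) [Field K] (L : Type u) [Field L] [Algebra K L]
  (σ : L ≃ₐ[K] L) (N : ℕ), 0 < N → σ ^ N = 1 →
  ∃ (D : Type u) (_ : Ring D) (_ : Algebra K D) (_ : Nontrivial D) (F : Type u) (_ : Field F)
    (_ : Algebra K F) (ρ : D →ₐ[K] Matrix (Fin N) (Fin N) F) (e : L →ₐ[K] D) (t : D),
    (∀ z : D, IsUnit z ∨ z = 0) ∧ Function.Injective ρ ∧ (∀ l, t * e l = e (σ l) * t) ∧
    ∀ (m : ℕ) (c : Fin m → L), ∑ k : Fin m, e (c k) * t ^ (k : ℕ) = 0 → c = 0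

/-- PART DIV (from DIVA and DIVB). -/
def DIV_stmt : Prop := ∀ (K : Type u) [Field K] (n : ℕ) (a : A K n), a ≠ 0 →
  ∃ (D : Type u) (_ : Ring D) (_ : Algebra K D) (_ : Nontrivial D) (F : Type u) (_ : Field F)
    (_ : Algebra K F) (N : ℕ) (ρ : D →ₐ[K] Matrix (Fin N) (Fin N) F) (d : Fin n → D),
    (∀ z : D, IsUnit z ∨ z = 0) ∧ Function.Injective ρ ∧ ev d a ≠ 0

/-- PART LIN. -/
def LIN_stmt : Prop := ∀ (C : Type u) [Ring C] (n g : ℕ)
  (J : Matrix (Fin n) (Fin n) (MonoidAlgebra C (FreeMonoid (Fin g)))),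
  IsUnit (Matrix.of fun k i => (J k i).coeff 1 : Matrix (Fin n) (Fin n) C) →
  ∃ (S : Type) (_ : Fintype S) (_ : DecidableEq S) (B : Fin g → Matrix S S C),
    ((∃ k : ℕ, ∀ w : List (Fin g), k ≤ w.length → (w.map B).prod = 0) → IsUnit J) ∧
    ∀ (V : Type u) [AddCommGroup V]
      (E : MonoidAlgebra C (FreeMonoid (Fin g)) →+* AddMonoid.End V),
      (∀ v : Fin n → V, (∀ k, ∑ i, E (J k i) (v i) = 0) → v = 0) →
      ∀ s : S → V,
        (∀ a, s a = ∑ j, ∑ b, E (MonoidAlgebra.single (FreeMonoid.of j) (B j a b)) (s b)) → s = 0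

/-- PART CONV. -/
def CONV_stmt : Prop := ∀ (K : Type u) [Field K] (n : ℕ),
  ∃ e : (A K n ⊗[K] A K n) ≃+* MonoidAlgebra (A K n) (FreeMonoid (Fin n)),
    (∀ i, e (x i ⊗ₜ 1) = MonoidAlgebra.single (FreeMonoid.of i) 1) ∧
    (∀ a, e (1 ⊗ₜ a) = MonoidAlgebra.single 1 a) ∧
    (∀ a b, (e (a ⊗ₜ b)).coeff 1 = eps a • b)

/-- PART U1 (from NIL and LIN). -/
def U1_stmt : Prop := ∀ (K : Type u) [Field K] (n g : ℕ) (M : Matrix (Fin n) (Fin n) (A K g)),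
  (∀ (N : ℕ) (X : Fin g → Matrix (Fin N) (Fin N) K) (v : Fin n → (Fin N → K)),
    (∀ k, ∑ i, (ev X (M k i)).mulVec (v i) = 0) → v = 0) → IsUnit M

/-- PART U2 (from NIL, CHAIN, DIV, LIN, CONV and U1). -/
def U2_stmt : Prop := ∀ (K : Type u) [Field K] (n : ℕ)
  (J : Matrix (Fin n) (Fin n) (A K n ⊗[K] A K n)), PtInj K n J → IsUnit J

/-- The operators `D j` strip a factor `φ (x j)` from the right, `nab` is the deconcatenation. -/
structure IsStrip {K : Type u} [Field K] {n : ℕ} (φ : A K n →ₐ[K] A K n)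
    (D : Fin n → (A K n →ₗ[K] A K n)) (nab : A K n →ₗ[K] A K n ⊗[K] A K n) : Prop where
  D_one : ∀ j, D j 1 = 0
  D_mul : ∀ j k a, D j (a * φ (x k)) = if j = k then a else 0
  decomp : ∀ a, a = algebraMap K (A K n) (eps a) + ∑ j, D j a * φ (x j)
  nab_one : nab 1 = 1
  nab_mul : ∀ a k, nab (a * φ (x k)) = (a * φ (x k)) ⊗ₜ 1 + nab a * (1 ⊗ₜ φ (x k))

/-- PART STRIP. -/
def STRIP_stmt : Prop := ∀ (K : Type u) [Field K] (n : ℕ) (φ : A K n →ₐ[K] A K n),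
  (∀ k, eps (φ (x k)) = 0) → IsUnit (jac φ) →
  ∃ (D : Fin n → (A K n →ₗ[K] A K n)) (nab : A K n →ₗ[K] A K n ⊗[K] A K n), IsStrip φ D nab

/-- PART LOCFIN. -/
def LOCFIN_stmt : Prop := ∀ (K : Type u) [Field K] (n : ℕ) (φ : A K n →ₐ[K] A K n)
  (D : Fin n → (A K n →ₗ[K] A K n)) (nab : A K n →ₗ[K] A K n ⊗[K] A K n),
  (∀ k, eps (φ (x k)) = 0) → IsStrip φ D nab →
  ∀ a : A K n, ∃ V : Submodule K (A K n), FiniteDimensional K V ∧ a ∈ V ∧
    ∀ j, ∀ v ∈ V, D j v ∈ V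

/-- PART INJD. -/
def INJD_stmt : Prop := ∀ (K : Type u) [Field K] (n : ℕ) (φ : A K n →ₐ[K] A K n)
  (D : Fin n → (A K n →ₗ[K] A K n)) (nab : A K n →ₗ[K] A K n ⊗[K] A K n), IsStrip φ D nab →
  ∀ V : Submodule K (A K n), FiniteDimensional K V → (∀ j, ∀ v ∈ V, D j v ∈ V) →
  ∀ (F : Type u) [Field F] [Algebra K F] (N : ℕ) (X : Fin n → Matrix (Fin N) (Fin N) F)
    (s : V →ₗ[K] (Fin N → F)),
    (∀ (v : V) (w : Fin n → V), (∀ j, (w j : A K n) = D j v) →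
      s v = ∑ j, Matrix.vecMul (s (w j)) (ev X (φ (x j)))) → s = 0

/-- PART FINNIL (from INJD, LOCFIN and NIL). -/
def FINNIL_stmt : Prop := ∀ (K : Type u) [Field K] (n : ℕ) (φ : A K n →ₐ[K] A K n)
  (D : Fin n → (A K n →ₗ[K] A K n)) (nab : A K n →ₗ[K] A K n ⊗[K] A K n),
  (∀ k, eps (φ (x k)) = 0) → IsStrip φ D nab → IsOnto K n φ →
  ∀ a : A K n, ∃ k : ℕ, ∀ w : List (Fin n), k ≤ w.length → (w.map D).prod a = 0

/-- PART BIJ. -/
def BIJ_stmt : Prop := ∀ (K : Type u) [Field K] (n : ℕ) (φ : A K n →ₐ[K] A K n)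
  (D : Fin n → (A K n →ₗ[K] A K n)) (nab : A K n →ₗ[K] A K n ⊗[K] A K n),
  (∀ k, eps (φ (x k)) = 0) → IsStrip φ D nab →
  (∀ a : A K n, ∃ k : ℕ, ∀ w : List (Fin n), k ≤ w.length → (w.map D).prod a = 0) →
  Function.Bijective φ

end Pool.Agent.W543.GE
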