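import Mathlib
import Pool.Agent.W543.GE.Stm

/-!
# Good endomorphisms of free algebras: assembly
-/

set_option autoImplicit false

open scoped TensorProduct Kronecker Polynomial

universe u

namespace Pool.Agent.W543.GE

variable {K : Type u} [Field K] {n : ℕ}

/-- The translation `x_i ↦ x_i - c_i`. -/
noncomputable def trans (c : Fin n → K) : A K n →ₐ[K] A K n :=
  FreeAlgebra.lift K fun i => x i - algebraMap K (A K n) (c i)

theorem trans_trans (c : Fin n → K) : (trans c).comp (trans (-c)) = AlgHom.id K (A K n) := by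
  refine FreeAlgebra.hom_ext ?_
  funext i
  simp [trans]

theorem trans_bijective (c : Fin n → K) : Function.Bijective (trans c) := by
  have h1 : ∀ a, trans c (trans (-c) a) = a := fun a => by
    have := congrArg (fun f : A K n →ₐ[K] A K n => f a) (trans_trans c)
    simpa using this
  have h2 : ∀ a, trans (-c) (trans c a) = a := fun a => by
    have := congrArg (fun f : A K n →ₐ[K] A K n => f a) (trans_trans (-c))
    simpa using this
  exact ⟨Function.LeftInverse.injective h2, Function.RightInverse.surjective h1⟩

theorem main (hGP : GOODPT_stmt.{u}) (hU2 : U2_stmt.{u}) (hS : SURJ_stmt.{u})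
    (hST : STRIP_stmt.{u}) (hFN : FINNIL_stmt.{u}) (hB : BIJ_stmt.{u})
    (φ : A K n →ₐ[K] A K n) (h : IsLimit K n φ) : Function.Bijective φ := by
  set c : Fin n → K := fun i => eps (φ (x i)) with hc
  set φ' : A K n →ₐ[K] A K n := φ.comp (trans c) with hφ'
  have h1 : ∀ i, φ' (x i) = φ (x i) - algebraMap K (A K n) (c i) := by
    intro i
    rw [hφ', AlgHom.comp_apply, trans, FreeAlgebra.lift_ι_apply, map_sub, AlgHom.commutes]
  have h2 : ∀ k, eps (φ' (x k)) = 0 := by
    intro k
    rw [h1, map_sub, AlgHom.commutes, hc]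
    exact sub_self _
  have h3 : jac φ' = jac φ := by
    funext k i
    rw [jac, jac, h1, map_sub, dd_algebraMap, sub_zero]
  have h4 : PtInj K n (jac φ') := by
    rw [h3]
    exact hGP K n φ h
  have h5 : IsUnit (jac φ') := hU2 K n _ h4
  have h6 : IsOnto K n φ' := hS K n φ' h4
  obtain ⟨D, nab, hD⟩ := hST K n φ' h2 h5
  have h7 : Function.Bijective φ' := hB K n φ' D nab h2 hD (hFN K n φ' D nab h2 hD h6)
  have h8 : Function.Bijective (φ ∘ trans c) := h7
  exact (Function.Bijective.of_comp_iff φ (trans_bijective c)).1 h8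

end Pool.Agent.W543.GE
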