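import Mathlib
import Pool.Agent.W543.GE.Asm

/-!
# Good endomorphisms of free algebras: powers of the augmentation ideal
-/

set_option autoImplicit false

open scoped TensorProduct Kronecker Polynomial

universe u

namespace Pool.Agent.W543.GE

variable {K : Type u} [Field K] {n : ℕ}

theorem x_mem_aug (i : Fin n) : (x i : A K n) ∈ aug K n := by
  change (eps : A K n →ₐ[K] K) (x i) = 0
  simp [FreeAlgebra.algebraMapInv]

theorem aug_mul_left {m : ℕ} (hm : 1 ≤ m) (a b : A K n) (hb : b ∈ aug K n ^ m) :
    a * b ∈ aug K n ^ m := by
  induction m, hm using Nat.le_induction generalizing b with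
  | base =>
    rw [pow_one] at hb ⊢
    change (eps : A K n →ₐ[K] K) (a * b) = 0
    rw [map_mul]
    have : (eps : A K n →ₐ[K] K) b = 0 := hb
    rw [this, mul_zero]
  | succ m hm ih =>
    rw [pow_succ] at hb ⊢
    refine Submodule.mul_induction_on hb ?_ ?_
    · intro c hc d hd
      rw [← mul_assoc]
      exact Submodule.mul_mem_mul (ih c hc) hd
    · intro c d hc hd
      rw [mul_add]
      exact Submodule.add_mem _ hc hd

theorem monomial_mem_aug (l : List (Fin n)) : ∀ m : ℕ, 1 ≤ m → m ≤ l.length →
    ((l.map (FreeAlgebra.ι K)).prod : A K n) ∈ aug K n ^ m := by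
  induction l with
  | nil => intro m h1 h2; simp at h2; omega
  | cons i l ih =>
    intro m h1 h2
    rw [List.map_cons, List.prod_cons]
    rw [List.length_cons] at h2
    by_cases hm : m ≤ l.length
    · exact aug_mul_left h1 _ _ (ih m h1 hm)
    · have hm' : m = l.length + 1 := by omega
      subst hm'
      by_cases hl : l.length = 0
      · rw [List.length_eq_zero_iff] at hl
        subst hl
        simp only [List.length_nil, zero_add, pow_one, List.map_nil, List.prod_nil, mul_one]
        exact x_mem_aug i
      · rw [pow_succ']
        exact Submodule.mul_mem_mul (x_mem_aug i) (ih l.length (by omega) le_rfl)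

end Pool.Agent.W543.GE
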